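import Mathlib

set_option autoImplicit false

/-!
Queue automata with natural number states and letters.  `δ q a = some (q', v)` means: in state `q`
with first letter `a` of the queue, remove `a`, append `v` at the end, go to state `q'`;
`δ q a = none` means halt.
-/

namespace Pool.Agent.LibQA

/-- One step of a queue automaton (`none` = halted). -/
def QStep (δ : ℕ → ℕ → Option (ℕ × List ℕ)) (c : ℕ × List ℕ) : Option (ℕ × List ℕ) :=
  match c.2 with
  | [] => none
  | a :: w => (δ c.1 a).map fun r => (r.1, w ++ r.2)

/-- The configuration after `t` steps (`none` = halted before). -/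
def QRun (δ : ℕ → ℕ → Option (ℕ × List ℕ)) (c : ℕ × List ℕ) : ℕ → Option (ℕ × List ℕ)
  | 0 => some c
  | t + 1 => (QRun δ c t).bind (QStep δ)

/-- The automaton halts from configuration `c`. -/
def QHalts (δ : ℕ → ℕ → Option (ℕ × List ℕ)) (c : ℕ × List ℕ) : Prop :=
  ∃ t, QRun δ c t = none

/-- `δ` is a queue automaton with `s` states and `k` letters, all outputs nonempty. -/
def QFinite (s k : ℕ) (δ : ℕ → ℕ → Option (ℕ × List ℕ)) : Prop :=
  ∀ q a r, q < s → a < k → δ q a = some r → r.1 < s ∧ r.2 ≠ [] ∧ ∀ c ∈ r.2, c < k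

end Pool.Agent.LibQA
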