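import Mathlib
import Pool.Agent.LibQA.Defs

set_option autoImplicit false

/-!
Simulation of a finite `TM0` machine by a queue automaton with nonempty outputs.

The queue holds the tape as a cyclic word `# c_1 … c_m`; one cell carries the state of the
machine. The automaton holds the letter read last and appends it, possibly changed, when it reads
the next one.
-/

namespace Pool.Agent.LibQA

open Turing StateTransition Relation

/-! ### Queue automata over arbitrary types -/

/-- one step of a queue automaton -/
def TStep {Q A : Type} (δ : Q → A → Option (Q × List A)) (c : Q × List A) : Option (Q × List A) :=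
  match c.2 with
  | [] => none
  | a :: w => (δ c.1 a).map fun r => (r.1, w ++ r.2)

theorem qrun_reaches (δ : ℕ → ℕ → Option (ℕ × List ℕ)) (c : ℕ × List ℕ) (t : ℕ) :
    ∀ d, QRun δ c t = some d → Reaches (QStep δ) c d := by
  induction t with
  | zero =>
    intro d hd
    rw [QRun, Option.some.injEq] at hd
    rw [hd]
    exact ReflTransGen.refl
  | succ t ih =>
    intro d hd
    rw [QRun, Option.bind_eq_some_iff] at hd
    obtain ⟨e, he, hd⟩ := hd
    exact ReflTransGen.tail (ih e he) hd

theorem reaches_qrun (δ : ℕ → ℕ → Option (ℕ × List ℕ)) (c d : ℕ × List ℕ)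
    (h : Reaches (QStep δ) c d) : ∃ t, QRun δ c t = some d := by
  induction h with
  | refl => exact ⟨0, rfl⟩
  | tail _ hd ih =>
    obtain ⟨t, ht⟩ := ih
    refine ⟨t + 1, ?_⟩
    rw [QRun, ht]
    exact hd

theorem qhalts_iff (δ : ℕ → ℕ → Option (ℕ × List ℕ)) (c : ℕ × List ℕ) :
    QHalts δ c ↔ (StateTransition.eval (QStep δ) c).Dom := by
  constructor
  · rintro ⟨t, ht⟩
    induction t with
    | zero => rw [QRun] at ht; exact absurd ht (by simp)
    | succ t ih =>
      by_cases h : QRun δ c t = none
      · exact ih h
      · obtain ⟨d, hd⟩ := Option.ne_none_iff_exists'.1 h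
        rw [QRun, hd] at ht
        have h2 : d ∈ StateTransition.eval (QStep δ) c :=
          StateTransition.mem_eval.2 ⟨qrun_reaches δ c t d hd, ht⟩
        exact Part.dom_iff_mem.2 ⟨d, h2⟩
  · intro h
    obtain ⟨d, hd⟩ := Part.dom_iff_mem.1 h
    obtain ⟨h1, h2⟩ := StateTransition.mem_eval.1 hd
    obtain ⟨t, ht⟩ := reaches_qrun δ c d h1
    refine ⟨t + 1, ?_⟩
    rw [QRun, ht]
    exact h2

/-- from arbitrary finite types to numbers -/
theorem transfer {Q A : Type} [Finite Q] [Finite A] (δT : Q → A → Option (Q × List A))
    (hne : ∀ q a r, δT q a = some r → r.2 ≠ []) :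
    ∃ (s k : ℕ) (δ : ℕ → ℕ → Option (ℕ × List ℕ)) (eQ : Q → ℕ) (eA : A → ℕ),
      QFinite s k δ ∧ (∀ q, eQ q < s) ∧ (∀ a, eA a < k) ∧
      ∀ q w, (QHalts δ (eQ q, w.map eA) ↔ (StateTransition.eval (TStep δT) (q, w)).Dom) := by
  classical
  let eQ : Q → ℕ := fun q => (Finite.equivFin Q q : ℕ)
  let eA : A → ℕ := fun a => (Finite.equivFin A a : ℕ)
  have hQ : Function.Injective eQ := fun x y h => (Finite.equivFin Q).injective (Fin.ext h)
  have hA : Function.Injective eA := fun x y h => (Finite.equivFin A).injective (Fin.ext h)
  let δ : ℕ → ℕ → Option (ℕ × List ℕ) := fun n m =>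
    if h : ∃ p : Q × A, eQ p.1 = n ∧ eA p.2 = m then
      (δT h.choose.1 h.choose.2).map fun r => (eQ r.1, r.2.map eA) else none
  have hδ : ∀ q a, δ (eQ q) (eA a) = (δT q a).map fun r => (eQ r.1, r.2.map eA) := by
    intro q a
    have h : ∃ p : Q × A, eQ p.1 = eQ q ∧ eA p.2 = eA a := ⟨(q, a), rfl, rfl⟩
    have h1 : δ (eQ q) (eA a) =
        (δT h.choose.1 h.choose.2).map fun r => (eQ r.1, r.2.map eA) := dif_pos h
    have h2 := h.choose_spec
    rw [h1, hQ h2.1, hA h2.2]
  refine ⟨Nat.card Q, Nat.card A, δ, eQ, eA, ?_, fun q => (Finite.equivFin Q q).2,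
    fun a => (Finite.equivFin A a).2, ?_⟩
  · intro n m r _ _ hr
    by_cases h : ∃ p : Q × A, eQ p.1 = n ∧ eA p.2 = m
    · obtain ⟨⟨q, a⟩, h1, h2⟩ := h
      simp only at h1 h2
      rw [← h1, ← h2, hδ, Option.map_eq_some_iff] at hr
      obtain ⟨r', hr', hr⟩ := hr
      rw [← hr]
      refine ⟨(Finite.equivFin Q r'.1).2, ?_, ?_⟩
      · simpa using hne q a r' hr'
      · intro c hc
        rw [List.mem_map] at hc
        obtain ⟨b, _, rfl⟩ := hc
        exact (Finite.equivFin A b).2
    · have h1 : δ n m = none := dif_neg h
      rw [h1] at hr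
      exact absurd hr (by simp)
  · intro q w
    rw [qhalts_iff]
    let tr : Q × List A → ℕ × List ℕ → Prop := fun u v => v = (eQ u.1, u.2.map eA)
    have hR : StateTransition.Respects (TStep δT) (QStep δ) tr := by
      rintro ⟨q, w⟩ v rfl
      cases w with
      | nil => rfl
      | cons a w =>
        cases hqa : δT q a with
        | none =>
          have h1 : TStep δT (q, a :: w) = none := by
            simp only [TStep, hqa, Option.map_none]
          rw [h1]
          simp only [QStep, List.map_cons, hδ, hqa, Option.map_none]
        | some r =>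
          have h1 : TStep δT (q, a :: w) = some (r.1, w ++ r.2) := by
            simp only [TStep, hqa, Option.map_some]
          rw [h1]
          refine ⟨(eQ r.1, (w ++ r.2).map eA), rfl, ?_⟩
          apply TransGen.single
          simp only [QStep, List.map_cons, hδ, hqa, Option.map_some, List.map_append,
            Option.mem_def]
    exact StateTransition.tr_eval_dom hR rfl

/-! ### The simulating automaton -/

section Sim

variable {Γ L : Type} [Inhabited Γ]

/-- Letters: an unmarked letter (`none` is the end marker), or a cell with a state. -/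
abbrev Ltr (Γ L : Type) : Type := Option Γ ⊕ (L × Γ)

/-- States: holding an unmarked letter; holding a marked cell that is not to be changed; holding an
unmarked cell when the next cell is to be marked. -/
inductive Stt (Γ L : Type)
  | hold (x : Option Γ)
  | pend (q : L) (b : Γ)
  | rt (q : L) (a : Γ)

instance [Finite Γ] [Finite L] : Finite (Stt Γ L) := by
  apply Finite.of_injective (β := Option Γ ⊕ (L × Γ) ⊕ (L × Γ)) (fun s => match s with
    | .hold x => .inl x
    | .pend q b => .inr (.inl (q, b))
    | .rt q b => .inr (.inr (q, b)))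
  intro x y h
  cases x <;> cases y <;> simp_all

/-- the transition function of the simulating automaton -/
def sδ (N : L → Γ → Option (L × TM0.Stmt Γ)) : Stt Γ L → Ltr Γ L →
    Option (Stt Γ L × List (Ltr Γ L))
  | .hold x, .inl y => some (.hold y, [.inl x])
  | .hold x, .inr (q, a) =>
    match N q a with
    | none => none
    | some (q', .write b) => some (.pend q' b, [.inl x])
    | some (q', .move .right) => some (.rt q' a, [.inl x])
    | some (q', .move .left) =>
      match x with
      | some b => some (.hold (some a), [.inr (q', b)])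
      | none => some (.hold (some a), [.inl none, .inr (q', default)])
  | .pend q b, .inl y => some (.hold y, [.inr (q, b)])
  | .pend _ _, .inr _ => none
  | .rt q a, .inl (some b) => some (.pend q b, [.inl (some a)])
  | .rt q a, .inl none => some (.hold none, [.inl (some a), .inr (q, default)])
  | .rt _ _, .inr _ => none

theorem sδ_ne (N : L → Γ → Option (L × TM0.Stmt Γ)) : ∀ q a r, sδ N q a = some r → r.2 ≠ [] := by
  intro q a r h
  unfold sδ at h
  split at h
  · simp only [Option.some.injEq] at h; rw [← h]; simp
  · split at h
    · exact absurd h (by simp)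
    · simp only [Option.some.injEq] at h; rw [← h]; simp
    · simp only [Option.some.injEq] at h; rw [← h]; simp
    · split at h
      · simp only [Option.some.injEq] at h; rw [← h]; simp
      · simp only [Option.some.injEq] at h; rw [← h]; simp
  · simp only [Option.some.injEq] at h; rw [← h]; simp
  · exact absurd h (by simp)
  · simp only [Option.some.injEq] at h; rw [← h]; simp
  · simp only [Option.some.injEq] at h; rw [← h]; simp
  · exact absurd h (by simp)

variable (N : L → Γ → Option (L × TM0.Stmt Γ))

/-- flushing unmarked letters -/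
theorem flush (v : List (Option Γ)) : ∀ (y : Option Γ) (z : List (Ltr Γ L)),
    Reaches (TStep (sδ N)) (.hold y, v.map Sum.inl ++ z)
      (.hold ((y :: v).getLast (by simp)), z ++ ((y :: v).dropLast).map Sum.inl) := by
  induction v with
  | nil =>
    intro y z
    simp only [List.map_nil, List.nil_append, List.getLast_singleton, List.dropLast_singleton,
      List.append_nil]
    exact ReflTransGen.refl
  | cons y' v ih =>
    intro y z
    refine ReflTransGen.head (b := (.hold y', v.map Sum.inl ++ (z ++ [Sum.inl y]))) ?_ ?_
    · simp only [TStep, List.map_cons, List.cons_append, sδ, Option.map_some, List.append_assoc,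
        Option.mem_def]
    · have h := ih y' (z ++ [Sum.inl y])
      rw [List.getLast_cons (by simp), List.dropLast_cons_of_ne_nil (by simp), List.map_cons]
      rw [List.append_assoc, List.singleton_append] at h
      exact h

/-- the unmarked word before the head -/
def pre (l : List Γ) : List (Option Γ) := none :: (l.reverse.map some)

omit [Inhabited Γ] in
theorem pre_cons (a : Γ) (l : List Γ) : pre (a :: l) = pre l ++ [some a] := by
  simp [pre]

omit [Inhabited Γ] in
theorem pre_ne (l : List Γ) : pre l ≠ [] := by simp [pre]

/-- the configuration of the automaton that represents a configuration of the machine -/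
def conf (q : L) (l r : List Γ) (a : Γ) : Stt Γ L × List (Ltr Γ L) :=
  (.hold ((pre l).getLast (pre_ne l)),
    .inr (q, a) :: ((r.map some).map Sum.inl ++ ((pre l).dropLast).map Sum.inl))

/-- from a word with a pending marked letter -/
theorem from_pend (q : L) (l r : List Γ) (b : Γ) :
    Reaches₁ (TStep (sδ N)) (.pend q b, (r.map some ++ pre l).map Sum.inl) (conf q l r b) := by
  obtain ⟨y, v, hyv⟩ : ∃ y v, r.map some ++ pre l = y :: v := by
    cases h : r.map some ++ pre l with
    | nil => simp [pre] at h
    | cons y v => exact ⟨y, v, rfl⟩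
  have h1 := flush N v y [Sum.inr (q, b)]
  refine TransGen.head' (b := (.hold y, v.map Sum.inl ++ [Sum.inr (q, b)])) ?_ ?_
  · rw [hyv]
    simp only [TStep, List.map_cons, sδ, Option.map_some, Option.mem_def]
  · have e1 : (y :: v).getLast (by simp) = (pre l).getLast (pre_ne l) := by
      have h2 : (r.map some ++ pre l).getLast (by rw [hyv]; simp) =
          (pre l).getLast (pre_ne l) := List.getLast_append_of_ne_nil _ _
      rw [← h2]
      congr 1
      exact hyv.symm
    have e2 : (y :: v).dropLast = r.map some ++ (pre l).dropLast := by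
      rw [← hyv, List.dropLast_append_of_ne_nil (pre_ne l)]
    rw [e1, e2, List.map_append] at h1
    exact h1

omit [Inhabited Γ] in
theorem conf_split (l r : List Γ) :
    ((r.map some).map Sum.inl ++ ((pre l).dropLast).map Sum.inl) ++
      [Sum.inl ((pre l).getLast (pre_ne l))] =
        ((r.map some ++ pre l).map Sum.inl : List (Ltr Γ L)) := by
  rw [List.append_assoc, ← List.map_singleton, ← List.map_append, ← List.map_append,
    List.dropLast_append_getLast]

theorem step_none (q : L) (l r : List Γ) (a : Γ) (h : N q a = none) :
    TStep (sδ N) (conf q l r a) = none := by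
  simp only [TStep, conf, sδ, h, Option.map_none]

theorem step_write (q q' : L) (l r : List Γ) (a b : Γ) (h : N q a = some (q', .write b)) :
    Reaches₁ (TStep (sδ N)) (conf q l r a) (conf q' l r b) := by
  refine TransGen.head ?_ (from_pend N q' l r b)
  rw [← conf_split l r]
  simp only [TStep, conf, sδ, h, Option.map_some, Option.mem_def]

theorem step_right (q q' : L) (l r : List Γ) (a : Γ) (h : N q a = some (q', .move .right)) :
    Reaches₁ (TStep (sδ N)) (conf q l r a) (conf q' (a :: l) r.tail r.headI) := by
  have h1 : (.rt q' a, (r.map some ++ pre l).map Sum.inl) ∈ TStep (sδ N) (conf q l r a) := by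
    rw [← conf_split l r]
    simp only [TStep, conf, sδ, h, Option.map_some, Option.mem_def]
  cases r with
  | nil =>
    have h2 := flush N ((l.reverse.map some) ++ [some a]) none [Sum.inr (q', default)]
    refine TransGen.head h1 (TransGen.head' (b := (.hold none,
      ((l.reverse.map some) ++ [some a]).map Sum.inl ++ [Sum.inr (q', default)])) ?_ ?_)
    · simp only [TStep, List.map_nil, List.nil_append, pre, List.map_cons, sδ, Option.map_some,
        Option.mem_def, List.map_append, List.append_assoc, List.cons_append]
    · have e1 : (none :: ((l.reverse.map some) ++ [some a])) = pre (a :: l) := by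
        rw [pre_cons]; rfl
      simp only [e1] at h2
      simp only [conf, List.tail_nil, List.map_nil, List.nil_append]
      exact h2
  | cons b r =>
    refine TransGen.head h1 (TransGen.head ?_ (from_pend N q' (a :: l) r b))
    rw [pre_cons, ← List.append_assoc, List.map_append (l₂ := [some a])]
    simp only [TStep, List.map_cons, List.cons_append, sδ, Option.map_some,
        Option.mem_def, List.map_nil]

theorem step_left (q q' : L) (l r : List Γ) (a : Γ) (h : N q a = some (q', .move .left)) :
    Reaches₁ (TStep (sδ N)) (conf q l r a) (conf q' l.tail (a :: r) l.headI) := by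
  cases l with
  | nil =>
    have h2 := flush N (r.map some ++ [none]) (some a) [Sum.inr (q', default)]
    refine TransGen.head' (b := (.hold (some a), (r.map some ++ [none]).map Sum.inl ++
      [Sum.inr (q', default)])) ?_ ?_
    · simp only [TStep, conf, pre, List.reverse_nil, List.map_nil, List.getLast_singleton,
        List.dropLast_singleton, List.append_nil, sδ, h, Option.map_some, Option.mem_def,
        List.map_append, List.append_assoc, List.map_cons, List.cons_append, List.nil_append]
    · have e1 : (some a :: (r.map some ++ [none])) = (some a :: r.map some) ++ [none] := rfl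
      have e2 : (some a :: (r.map some ++ [none])).getLast (by simp) = (none : Option Γ) := by
        simp
      have e3 : (some a :: (r.map some ++ [none])).dropLast = some a :: r.map some := by
        rw [e1, List.dropLast_concat]
      rw [e2, e3] at h2
      change Reaches (TStep (sδ N)) _ _
      simpa [conf, pre] using h2
  | cons b l =>
    have h2 := flush N (r.map some ++ pre l) (some a) [Sum.inr (q', b)]
    refine TransGen.head' (b := (.hold (some a), (r.map some ++ pre l).map Sum.inl ++
      [Sum.inr (q', b)])) ?_ ?_
    · have e1 : (pre (b :: l)).getLast (pre_ne _) = some b := by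
        simp only [pre_cons, List.getLast_append_singleton]
      have e2 : (pre (b :: l)).dropLast = pre l := by
        rw [pre_cons, List.dropLast_concat]
      simp only [TStep, conf, e1, e2, sδ, h, Option.map_some, Option.mem_def, List.map_append]
    · have e1 : (some a :: (r.map some ++ pre l)) = (some a :: r.map some) ++ pre l := rfl
      have e2 : (some a :: (r.map some ++ pre l)).getLast (by simp) =
          (pre l).getLast (pre_ne l) := by
        simp only [e1]
        exact List.getLast_append_of_ne_nil _ _
      have e3 : (some a :: (r.map some ++ pre l)).dropLast =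
          (some a :: r.map some) ++ (pre l).dropLast := by
        rw [e1, List.dropLast_append_of_ne_nil (pre_ne l)]
      rw [e2, e3] at h2
      change Reaches (TStep (sδ N)) _ _
      simpa [conf] using h2

end Sim

/-- TASK B.  Simulation of a finite TM0 machine by a queue automaton with nonempty outputs. -/
theorem taskB {Γ Λ : Type} [Inhabited Γ] [Fintype Γ] [Inhabited Λ] (M : TM0.Machine Γ Λ)
    (S : Finset Λ) (hS : TM0.Supports M (S : Set Λ)) :
    ∃ (s k : ℕ) (δ : ℕ → ℕ → Option (ℕ × List ℕ)) (q₀ : ℕ) (f g : Γ → ℕ),
      QFinite s k δ ∧ q₀ < s ∧ (∀ x, f x < k ∧ g x < k) ∧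
      ∀ l : List Γ, l ≠ [] →
        ((TM0.eval M l).Dom ↔ QHalts δ (q₀, f l.headI :: l.tail.map g)) := by
  classical
  let L : Type := {q : Λ // q ∈ S}
  let N : L → Γ → Option (L × TM0.Stmt Γ) := fun q a =>
    if h : ∃ r : L × TM0.Stmt Γ, M q.1 a = some (r.1.1, r.2) then some h.choose else none
  have hN0 : ∀ (q : L) (a : Γ), M q.1 a = none → N q a = none := by
    intro q a h
    have : ¬ ∃ r : L × TM0.Stmt Γ, M q.1 a = some (r.1.1, r.2) := by
      rintro ⟨r, hr⟩
      rw [h] at hr
      exact absurd hr (by simp)
    exact dif_neg this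
  have hN1 : ∀ (q : L) (a : Γ) (q' : Λ) (s : TM0.Stmt Γ), M q.1 a = some (q', s) →
      ∃ h : q' ∈ S, N q a = some (⟨q', h⟩, s) := by
    intro q a q' s h
    have hq' : q' ∈ S := hS.2 h q.2
    refine ⟨hq', ?_⟩
    have h1 : ∃ r : L × TM0.Stmt Γ, M q.1 a = some (r.1.1, r.2) := ⟨(⟨q', hq'⟩, s), h⟩
    have h2 : N q a = some h1.choose := dif_pos h1
    have h3 := h.symm.trans h1.choose_spec
    rw [Option.some.injEq, Prod.mk.injEq] at h3
    rw [h2]
    congr 1
    exact Prod.ext (Subtype.ext h3.1.symm) h3.2.symm
  obtain ⟨s, k, δ, eQ, eA, h1, h2, h3, h4⟩ := transfer (sδ N) (sδ_ne N)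
  have hd : default ∈ S := hS.1
  refine ⟨s, k, δ, eQ (.hold none), fun x => eA (.inr (⟨default, hd⟩, x)),
    fun x => eA (.inl (some x)), h1, h2 _, fun x => ⟨h3 _, h3 _⟩, fun l _ => ?_⟩
  let tr : TM0.Cfg Γ Λ → Stt Γ L × List (Ltr Γ L) → Prop := fun c u =>
    ∃ (h : c.q ∈ S) (l r : List Γ), c.Tape.left = ListBlank.mk l ∧
      c.Tape.right = ListBlank.mk r ∧ u = conf ⟨c.q, h⟩ l r c.Tape.head
  have hR : StateTransition.Respects (TM0.step M) (TStep (sδ N)) tr := by
    rintro ⟨q, T⟩ u ⟨hq, l, r, hl, hr, rfl⟩
    simp only at hq hl hr
    cases hM : M q T.head with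
    | none =>
      have e1 : TM0.step M ⟨q, T⟩ = none := by simp only [TM0.step, hM, Option.map_none]
      rw [e1]
      exact step_none N _ _ _ _ (hN0 ⟨q, hq⟩ _ hM)
    | some r' =>
      obtain ⟨q', st⟩ := r'
      obtain ⟨hq', hN'⟩ := hN1 ⟨q, hq⟩ _ _ _ hM
      cases st with
      | write b =>
        have e1 : TM0.step M ⟨q, T⟩ = some ⟨q', T.write b⟩ := by
          simp only [TM0.step, hM, Option.map_some]
        rw [e1]
        exact ⟨_, ⟨hq', l, r, hl, hr, rfl⟩, step_write N _ _ l r _ _ hN'⟩
      | move d =>
        cases d with
        | right =>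
          have e1 : TM0.step M ⟨q, T⟩ = some ⟨q', T.move .right⟩ := by
            simp only [TM0.step, hM, Option.map_some]
          rw [e1]
          refine ⟨_, ⟨hq', T.head :: l, r.tail, ?_, ?_, rfl⟩, ?_⟩
          · simp only [Tape.move, hl, ListBlank.cons_mk]
          · simp only [Tape.move, hr, ListBlank.tail_mk]
          · have := step_right N _ _ l r _ hN'
            simp only [Tape.move, hr, ListBlank.head_mk]
            exact this
        | left =>
          have e1 : TM0.step M ⟨q, T⟩ = some ⟨q', T.move .left⟩ := by
            simp only [TM0.step, hM, Option.map_some]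
          rw [e1]
          refine ⟨_, ⟨hq', l.tail, T.head :: r, ?_, ?_, rfl⟩, ?_⟩
          · simp only [Tape.move, hl, ListBlank.tail_mk]
          · simp only [Tape.move, hr, ListBlank.cons_mk]
          · have := step_left N _ _ l r _ hN'
            simp only [Tape.move, hl, ListBlank.head_mk]
            exact this
  have h5 : tr (TM0.init l) (.hold none, .inr (⟨default, hd⟩, l.headI) ::
      (l.tail.map some).map Sum.inl) := by
    refine ⟨hd, [], l.tail, rfl, rfl, ?_⟩
    simp only [conf, pre, List.reverse_nil, List.map_nil, List.getLast_singleton,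
      List.dropLast_singleton, List.append_nil]
    rfl
  have h6 := StateTransition.tr_eval_dom hR h5
  have h7 := h4 (.hold none) (.inr (⟨default, hd⟩, l.headI) :: (l.tail.map some).map Sum.inl)
  have e1 : (.inr (⟨default, hd⟩, l.headI) :: (l.tail.map some).map Sum.inl :
      List (Ltr Γ L)).map eA = eA (.inr (⟨default, hd⟩, l.headI)) ::
        l.tail.map fun x => eA (.inl (some x)) := by
    simp [List.map_map, Function.comp_def]
  rw [e1] at h7
  rw [h7, h6]
  rfl

end Pool.Agent.LibQA
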