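import Pool.Agent.LibQA.TaskA
import Pool.Agent.LibQA.TaskB

set_option autoImplicit false

namespace Pool.Agent.LibQA
open Turing

/-- TASK AB (assembly). -/
theorem base : ∃ (s k : ℕ) (δ : ℕ → ℕ → Option (ℕ × List ℕ)) (q₀ : ℕ) (ini : ℕ → List ℕ),
    QFinite s k δ ∧ q₀ < s ∧ (∀ n, ini n ≠ [] ∧ ∀ c ∈ ini n, c < k) ∧ Primrec ini ∧
    ¬ ComputablePred fun n => QHalts δ (q₀, ini n) := by
  obtain ⟨Γ, Λ, _, _, _, M, S, inp, hS, hne, hP, hU⟩ := taskA
  obtain ⟨s, k, δ, q₀, f, g, h1, h2, h3, h4⟩ := taskB M S hS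
  refine ⟨s, k, δ, q₀, fun n => f (inp n).headI :: (inp n).tail.map g, h1, h2, fun n => ⟨by simp,
    ?_⟩, ?_, ?_⟩
  · intro c hc
    rw [List.mem_cons, List.mem_map] at hc
    rcases hc with rfl | ⟨b, _, rfl⟩
    · exact (h3 _).1
    · exact (h3 _).2
  · have e1 : (fun n => f (inp n).headI :: (inp n).tail.map g) =
        fun n => ((inp n).map f).headI :: ((inp n).map g).tail := by
      funext n
      cases h : inp n with
      | nil => exact absurd h (hne n)
      | cons a l => rfl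
    rw [e1]
    exact Primrec.list_cons.comp (Primrec.list_headI.comp (hP f)) (Primrec.list_tail.comp (hP g))
  · intro hC
    apply hU
    refine hC.of_eq fun n => ?_
    exact (h4 (inp n) (hne n)).symm

end Pool.Agent.LibQA
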