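import Mathlib
import Pool.Agent.LibQA.Defs

set_option autoImplicit false

namespace Pool.Agent.LibQA
open Turing

/-- The symbol of a binary digit. -/
def bsym (b : Bool) : PartrecToTM2.Γ' := cond b PartrecToTM2.Γ'.bit1 PartrecToTM2.Γ'.bit0

theorem trPosNum_succ_bits (p : PosNum) :
    PartrecToTM2.trPosNum p = (Nat.bits (p : ℕ)).map bsym := by
  induction p with
  | one => simp [PartrecToTM2.trPosNum, bsym]
  | bit1 p ih =>
    have h : ((PosNum.bit1 p : PosNum) : ℕ) = 2 * (p : ℕ) + 1 := by
      simp [PosNum.cast_bit1]; ring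
    rw [PartrecToTM2.trPosNum, ih, h, Nat.bit1_bits]
    rfl
  | bit0 p ih =>
    have h : ((PosNum.bit0 p : PosNum) : ℕ) = 2 * (p : ℕ) := by
      simp [PosNum.cast_bit0]; ring
    rw [PartrecToTM2.trPosNum, ih, h, Nat.bit0_bits _ (PosNum.cast_pos p).ne']
    rfl

theorem trNat_bits (n : ℕ) : PartrecToTM2.trNat n = (Nat.bits n).map bsym := by
  rw [PartrecToTM2.trNat]
  have h : ((n : Num) : ℕ) = n := by simp
  rcases hn : (n : Num) with _ | p
  · rw [hn] at h
    have : n = 0 := by rw [← h]; rfl
    subst this
    rfl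
  · rw [hn] at h
    show PartrecToTM2.trPosNum p = _
    rw [trPosNum_succ_bits]
    congr 2

theorem primrec_bits : Primrec Nat.bits := by
  have hg : Primrec₂ fun (_ : Unit) (L : List (List Bool)) =>
      (if L.length = 0 then some ([] : List Bool) else
        (L[L.length / 2]?).map fun l => (decide (L.length % 2 = 1)) :: l) := by
    have hl : Primrec fun p : Unit × List (List Bool) => p.2.length :=
      Primrec.list_length.comp Primrec.snd
    refine Primrec.ite (Primrec.eq.comp hl (Primrec.const 0)) (Primrec.const _) ?_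
    refine Primrec.option_map ?_ ?_
    · exact Primrec.list_getElem?.comp Primrec.snd (Primrec.nat_div.comp hl (Primrec.const 2))
    · refine Primrec.list_cons.comp ?_ Primrec.snd
      refine (PrimrecPred.decide ?_)
      exact Primrec.eq.comp (Primrec.nat_mod.comp (hl.comp Primrec.fst) (Primrec.const 2))
        (Primrec.const 1)
  have := Primrec.nat_strong_rec (fun (_ : Unit) (n : ℕ) => Nat.bits n) hg (by
    intro _ n
    simp only [List.length_map, List.length_range]
    rcases Nat.eq_zero_or_pos n with rfl | hn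
    · simp
    · rw [if_neg hn.ne']
      have h2 : n / 2 < n := by omega
      simp only [List.getElem?_map, List.getElem?_range h2, Option.map_some, Option.some.injEq]
      rcases Nat.even_or_odd' n with ⟨m, rfl | rfl⟩
      · have hm : m ≠ 0 := by omega
        rw [Nat.bit0_bits _ hm]
        congr 1
        · simp
        · congr 1
          omega
      · rw [Nat.bit1_bits]
        congr 1
        · simp
        · congr 1; omega)
  exact this.comp (Primrec.const ()) Primrec.id

/-- The halting problem on input `0` in terms of numbers. -/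
noncomputable def haltF (n : ℕ) : Part ℕ :=
  Nat.Partrec.Code.eval (Denumerable.ofNat Nat.Partrec.Code n) 0

theorem haltF_partrec : Partrec haltF :=
  Nat.Partrec.Code.eval_part.comp (Computable.ofNat _) (Computable.const 0)

theorem haltF_undec : ¬ ComputablePred fun n => (haltF n).Dom := by
  intro h
  apply ComputablePred.halting_problem 0
  have h2 : (fun c : Nat.Partrec.Code => (c.eval 0).Dom) =
      fun c => (haltF (Encodable.encode c)).Dom := by
    funext c
    simp [haltF]
  rw [h2]
  obtain ⟨hd, hc⟩ := h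
  exact ⟨fun c => hd _, hc.comp Computable.encode⟩

instance : Fintype PartrecToTM2.K' :=
  ⟨{PartrecToTM2.K'.main, PartrecToTM2.K'.rev, PartrecToTM2.K'.aux, PartrecToTM2.K'.stack},
    fun x => by cases x <;> simp⟩

/-- The alphabet. -/
abbrev GA : Type := TM2to1.Γ' PartrecToTM2.K' (fun _ => PartrecToTM2.Γ')

/-- The letter of a symbol of the main stack. -/
def mainSym (b : Bool) (a : PartrecToTM2.Γ') : GA :=
  (b, Function.update (fun _ => none) PartrecToTM2.K'.main (some a))

/-- The input word. -/
def inp (n : ℕ) : List GA :=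
  TM2to1.trInit PartrecToTM2.K'.main (PartrecToTM2.trList [n])

theorem inp_eq (n : ℕ) : inp n =
    mainSym true PartrecToTM2.Γ'.cons ::
      ((Nat.bits n).reverse.map fun b => mainSym false (bsym b)) := by
  have h : PartrecToTM2.trList [n] = (Nat.bits n).map bsym ++ [PartrecToTM2.Γ'.cons] := by
    simp [PartrecToTM2.trList, trNat_bits]
  have h2 : ((Nat.bits n).map bsym ++ [PartrecToTM2.Γ'.cons]).reverse =
      PartrecToTM2.Γ'.cons :: ((Nat.bits n).reverse.map bsym) := by
    simp
  rw [inp, h]
  unfold TM2to1.trInit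
  rw [h2]
  show mainSym true PartrecToTM2.Γ'.cons ::
    List.map (mainSym false) (List.map bsym (Nat.bits n).reverse) = _
  rw [List.map_map]
  rfl

theorem taskA : ∃ (Γ Λ : Type) (_ : Inhabited Γ) (_ : Fintype Γ) (_ : Inhabited Λ)
    (M : TM0.Machine Γ Λ) (S : Finset Λ) (inp : ℕ → List Γ),
    TM0.Supports M (S : Set Λ) ∧ (∀ n, inp n ≠ []) ∧
    (∀ e : Γ → ℕ, Primrec fun n => (inp n).map e) ∧
    ¬ ComputablePred fun n => (TM0.eval M (inp n)).Dom := by
  obtain ⟨c, hc⟩ := ToPartrec.Code.exists_code (Nat.Partrec'.part_iff₁.2 haltF_partrec)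
  let iL : Inhabited PartrecToTM2.Λ' :=
    ⟨PartrecToTM2.trNormal c PartrecToTM2.Cont'.halt⟩
  let M1 := TM2to1.tr PartrecToTM2.tr
  refine ⟨GA, TM1to0.Λ' M1, inferInstance, inferInstance, inferInstance, TM1to0.tr M1,
    TM1to0.trStmts M1 (TM2to1.trSupp PartrecToTM2.tr
      (PartrecToTM2.codeSupp c PartrecToTM2.Cont'.halt)), inp, ?_, ?_, ?_, ?_⟩
  · apply TM1to0.tr_supports
    apply TM2to1.tr_supports
    exact PartrecToTM2.tr_supports c PartrecToTM2.Cont'.halt
  · intro n
    rw [inp_eq]
    exact List.cons_ne_nil _ _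
  · intro e
    simp only [inp_eq, List.map_cons, List.map_map]
    refine Primrec.list_cons.comp (Primrec.const _) ?_
    refine Primrec.list_map (Primrec.list_reverse.comp primrec_bits) ?_
    exact (Primrec.dom_finite (fun b : Bool => e (mainSym false (bsym b)))).comp Primrec.snd
  · intro h
    apply haltF_undec
    have h2 : (fun n => (haltF n).Dom) = fun n => (TM0.eval (TM1to0.tr M1) (inp n)).Dom := by
      funext n
      apply propext
      rw [TM1to0.tr_eval]
      have h3 := TM2to1.tr_eval_dom (M := PartrecToTM2.tr) PartrecToTM2.K'.main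
        (PartrecToTM2.trList [n])
      rw [show inp n = TM2to1.trInit PartrecToTM2.K'.main (PartrecToTM2.trList [n]) from rfl]
      rw [h3]
      have h4 := PartrecToTM2.tr_eval c [n]
      have h5 : (TM2.init PartrecToTM2.K'.main (PartrecToTM2.trList [n]) :
          TM2.Cfg (fun _ => PartrecToTM2.Γ') PartrecToTM2.Λ' (Option PartrecToTM2.Γ')) =
          PartrecToTM2.init c [n] := by
        have h6 : Function.update (fun _ => []) PartrecToTM2.K'.main (PartrecToTM2.trList [n]) =
            PartrecToTM2.K'.elim (PartrecToTM2.trList [n]) [] [] [] := by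
          funext k
          cases k <;> rfl
        show (⟨_, _, _⟩ : TM2.Cfg (fun _ => PartrecToTM2.Γ') PartrecToTM2.Λ'
          (Option PartrecToTM2.Γ')) = ⟨_, _, _⟩
        rw [h6]
        rfl
      change _ ↔ (StateTransition.eval (TM2.step PartrecToTM2.tr)
        (TM2.init PartrecToTM2.K'.main (PartrecToTM2.trList [n]))).Dom
      rw [h5, h4, hc ⟨[n], rfl⟩]
      rfl
    rw [h2]
    exact h

end Pool.Agent.LibQA
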